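import Mathlib
import Pool.Agent.R10.CPETLib
import Pool.Agent.R10.CSF

/-!
A CPET tree with maximum degree four and 23 vertices for which the coefficient of `e_(3,2^10)` in
the chromatic symmetric function is `5`, so it is not negative.  The tree: `v` carries two leaves
and a path with 8 vertices and is adjacent to `w`; `w` carries a leaf and a path with 10 vertices.
-/

namespace Pool.Agent.Results.MP_fedadc_co.PositiveCoefficient

open Finset Pool.Agent.R10.CPETLib Pool.Agent.R10.CSF

/-- the parent of a vertex: `0..7` is a path, `8` is `v` with leaves `9`, `10`, then `11` is `w`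
with the leaf `12` and the path `13..22` -/
def par (i : ℕ) : ℕ :=
  if i = 9 ∨ i = 10 ∨ i = 11 then 8
  else if i = 12 ∨ i = 13 then 11
  else i - 1

lemma par_le (i : ℕ) : par i ≤ i := by unfold par; split_ifs <;> omega

lemma par_lt (i : ℕ) (h : 0 < i) : par i < i := by unfold par; split_ifs <;> omega

/-- the tree -/
def tree : SimpleGraph (Fin 23) := treeOf par 23

instance : DecidableRel tree.Adj := inferInstanceAs (DecidableRel (treeOf par 23).Adj)

/-- the parent as a vertex -/
def parF (v : Fin 23) : Fin 23 := ⟨par v, lt_of_le_of_lt (par_le v) v.isLt⟩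

/-- vertex with a given number -/
def vert1 (i : ℕ) : Fin 23 := if h : i < 23 then ⟨i, h⟩ else 0

/-- the numbering -/
def pos1 (v : Fin 23) : ℕ := v

/-- the rule: where a block may start -/
def c1 (L _R : ℕ) : Bool := !(Nat.beq L 9 || (Nat.beq L 10 || Nat.beq L 12))

lemma beqf (a b : ℕ) : Nat.beq a b = false ↔ a ≠ b := by
  rw [← Bool.not_eq_true, Nat.beq_eq]

lemma c1_iff (L R : ℕ) : c1 L R = true ↔ (L ≠ 9 ∧ L ≠ 10 ∧ L ≠ 12) := by
  simp [c1, beqf]

/-- pairs of parts that are merged -/
def gp (k p : ℕ) : Bool :=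
  !((fun d => Nat.beq d 0 || (Nat.beq d 1 || (Nat.beq d 2 || Nat.beq d 3))) ((k - p) + (p - k)))

lemma gp_merge (k p : ℕ) (_hk : 2 ≤ k) (_hp : 2 ≤ p) (h : gp k p = true) :
    Mergeable c1 k p ∧ Mergeable c1 k p := by
  have h' : (k - p) + (p - k) ≠ 0 ∧ (k - p) + (p - k) ≠ 1 ∧ (k - p) + (p - k) ≠ 2 ∧
      (k - p) + (p - k) ≠ 3 := by
    simp only [gp, Bool.not_eq_true', Bool.or_eq_false_iff, beqf] at h
    tauto
  have key : Mergeable c1 k p := by
    intro L hL
    rw [c1_iff] at hL ⊢
    simp only [c1_iff]
    omega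
  exact ⟨key, key⟩

lemma real1 : Realises tree c1 23 vert1 pos1 parF where
  vert_pos v := by
    have := v.isLt
    simp [vert1, pos1]
  pos_vert i hi := by simp [vert1, pos1, hi]
  pos_lt v := v.isLt
  adj := by decide +kernel
  conn L R hc v h1 h2 := by
    rw [c1_iff] at hc
    have := v.isLt
    simp only [pos1, parF, par] at *
    split_ifs <;> omega

set_option maxRecDepth 100000 in
lemma check : chk gp (leafTest c1 c1 60) 60 23 2 [] = true := by decide +kernel

lemma has_all (s : Multiset ℕ) (hs : ∀ x ∈ s, 1 ≤ x) (hsum : s.sum = 23) :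
    HasConnectedPartition tree s :=
  has_of_check real1 real1 (by norm_num) gp_merge check s hs hsum

lemma tree_cpet : IsCPET tree := by
  refine ⟨?_, by decide +kernel, ?_⟩
  · rw [SimpleGraph.isTree_iff_connected_and_card]
    refine ⟨real1.connected (by norm_num) (by decide), ?_⟩
    rw [Nat.card_eq_fintype_card, Nat.card_eq_fintype_card, ← SimpleGraph.edgeFinset_card]
    decide +kernel
  · intro q
    exact has_all q.parts (fun x hx => q.parts_pos hx) (q.parts_sum.trans (Fintype.card_fin 23))

set_option maxRecDepth 100000 in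
lemma run_eq : (run par 22 W0).1 = 23 ∧ (run par 22 W0).2.2 = -5 := by decide +kernel

/-- the partition `(3, 2, …, 2)` of `23` with ten parts equal to `2` -/
def lam : Nat.Partition 23 where
  parts := 3 ::ₘ Multiset.replicate 10 2
  parts_pos := by
    intro i hi
    rw [Multiset.mem_cons, Multiset.mem_replicate] at hi
    omega
  parts_sum := by simp

/-- There is a CPET tree on 23 vertices (an odd number), with maximum degree `4`, whose chromatic
symmetric function (in any number `N ≥ 23` of variables) has coefficient `5` at `e_(3, 2^10)`. -/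
theorem result : ∃ T : SimpleGraph (Fin 23), ∃ _ : DecidableRel T.Adj,
    IsCPET T ∧ ∀ N : ℕ, 23 ≤ N → eCoeff T N lam = 5 := by
  refine ⟨tree, inferInstance, tree_cpet, ?_⟩
  intro N hN
  obtain ⟨M, rfl⟩ : ∃ M, N = M + 3 := ⟨N - 3, by omega⟩
  have h := eCoeff_treeOf par par_le par_lt (M := M) (a := 10) (by norm_num) lam rfl
    (run par 22 W0).2 (Prod.ext run_eq.1 rfl)
  rw [run_eq.2] at h
  have h2 : eCoeff tree (M + 3) lam = eCoeff (treeOf par (2 * 10 + 3)) (M + 3) lam := rfl
  rw [h2, h]
  norm_num

end Pool.Agent.Results.MP_fedadc_co.PositiveCoefficient
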